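import Pool.Agent.Helper522.MSA.Model
import Pool.Agent.Helper522.MSA.MainB

/-!
# Conjugacy of masas in the hyperfinite II₁ factor is not turbulent

`IsMasa`, `Masa` and the Effros–Maréchal topology `emTop` on `Masa M` are in
`Pool/Agent/Helper522/MSA/Top.lean`, the other definitions are below.
-/

set_option autoImplicit false

open scoped InnerProductSpace
open Pool.Agent.Helper522.MSA (Masa)

namespace Pool.Agent.Results.MP_ae6442_lc.NotTurbulent

section defs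

variable {H : Type} [NormedAddCommGroup H] [InnerProductSpace ℂ H] [CompleteSpace H]

/-- `M` is a II₁ factor in standard form on `H`, with trace vector `Ω`: the vector state of `Ω` is
a trace on `M`, `Ω` is cyclic and separating, the centre of `M` is trivial, and `H` (equivalently
`M`) is infinite dimensional. -/
structure IsStdII1 (M : VonNeumannAlgebra H) (Ω : H) : Prop where
  unit : ‖Ω‖ = 1
  tr : ∀ x ∈ M, ∀ y ∈ M, ⟪Ω, x (y Ω)⟫_ℂ = ⟪Ω, y (x Ω)⟫_ℂ
  cyc : Dense {ξ : H | ∃ x ∈ M, ξ = x Ω}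
  sep : ∀ x ∈ M, x Ω = 0 → x = 0
  fac : ∀ z ∈ M, (∀ x ∈ M, z * x = x * z) → ∃ c : ℂ, z = c • (1 : H →L[ℂ] H)
  inf : ¬ FiniteDimensional ℂ H

/-- `N` is a finite dimensional unital *-subalgebra of `B(H)`. -/
structure IsFinAlg (N : Set (H →L[ℂ] H)) : Prop where
  one : 1 ∈ N
  add : ∀ x ∈ N, ∀ y ∈ N, x + y ∈ N
  mul : ∀ x ∈ N, ∀ y ∈ N, x * y ∈ N
  smul : ∀ (c : ℂ), ∀ x ∈ N, c • x ∈ N
  adj : ∀ x ∈ N, star x ∈ N
  fin : ∃ (m : ℕ) (e : Fin m → H →L[ℂ] H), ∀ x ∈ N, ∃ c : Fin m → ℂ, x = ∑ i, c i • e i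

/-- `M` is hyperfinite: there is an increasing sequence of finite dimensional *-subalgebras of `M`
whose union is dense for the 2-norm. -/
def Hyperfinite (M : VonNeumannAlgebra H) (Ω : H) : Prop :=
  ∃ N : ℕ → Set (H →L[ℂ] H), (∀ n, IsFinAlg (N n)) ∧ (∀ n, N n ⊆ N (n + 1)) ∧
    (∀ n, ∀ x ∈ N n, x ∈ M) ∧ ∀ x ∈ M, ∀ ε : ℝ, 0 < ε → ∃ n, ∃ y ∈ N n, ‖x Ω - y Ω‖ < ε

/-- The elements of `M`. -/
def Alg (M : VonNeumannAlgebra H) : Type := {x : H →L[ℂ] H // x ∈ M}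

instance (M : VonNeumannAlgebra H) : Add (Alg M) := ⟨fun x y => ⟨x.1 + y.1, add_mem x.2 y.2⟩⟩

instance (M : VonNeumannAlgebra H) : Mul (Alg M) := ⟨fun x y => ⟨x.1 * y.1, mul_mem x.2 y.2⟩⟩

noncomputable instance (M : VonNeumannAlgebra H) : SMul ℂ (Alg M) :=
  ⟨fun c x => ⟨c • x.1, M.toStarSubalgebra.smul_mem x.2 c⟩⟩

noncomputable instance (M : VonNeumannAlgebra H) : Star (Alg M) := ⟨fun x => ⟨star x.1, star_mem x.2⟩⟩

/-- The group of *-automorphisms of `M`. -/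
abbrev Au (M : VonNeumannAlgebra H) : Type := Alg M ≃⋆ₐ[ℂ] Alg M

/-- The u-topology on `Au M`: pointwise convergence in the 2-norm `‖x‖₂ = ‖x Ω‖`. -/
noncomputable abbrev uTop (M : VonNeumannAlgebra H) (Ω : H) : TopologicalSpace (Au M) :=
  TopologicalSpace.induced (fun (α : Au M) (x : Alg M) => (α x).1 Ω) inferInstance

/-- `B = α(A)`. -/
def IsImage {M : VonNeumannAlgebra H} (α : Au M) (A B : Masa M) : Prop :=
  ∀ y : H →L[ℂ] H, y ∈ B.1 ↔ ∃ x : Alg M, x.1 ∈ A.1 ∧ (α x).1 = y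

/-- The orbit of a masa. -/
def orbit {M : VonNeumannAlgebra H} (A : Masa M) : Set (Masa M) :=
  {B | ∃ α : Au M, IsImage α A B}

/-- The local orbit `O(A,U,V)`. -/
def localOrbit {M : VonNeumannAlgebra H} (A : Masa M) (U : Set (Masa M)) (V : Set (Au M)) :
    Set (Masa M) :=
  {B | ∃ (n : ℕ) (s : ℕ → Masa M), s 0 = A ∧ s n = B ∧ (∀ k ≤ n, s k ∈ U) ∧
    ∀ k < n, ∃ α ∈ V, IsImage α (s k) (s (k + 1))}

/-- The action of `Aut(M)` on the space of masas is turbulent: every orbit is dense and meager and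
every local orbit is somewhere dense. -/
def Turbulent (M : VonNeumannAlgebra H) (Ω : H) : Prop :=
  (∀ A : Masa M, Dense (orbit A) ∧ IsMeagre (orbit A)) ∧
    ∀ (A : Masa M) (U : Set (Masa M)) (V : Set (Au M)), IsOpen U → A ∈ U →
      @IsOpen _ (uTop M Ω) V → (StarAlgEquiv.refl ℂ (Alg M) : Au M) ∈ V →
        (interior (closure (localOrbit A U V))).Nonempty

end defs

section aux

variable {H : Type} [NormedAddCommGroup H] [InnerProductSpace ℂ H] [CompleteSpace H]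

theorem std (M : VonNeumannAlgebra H) (Ω : H) (h : Pool.Agent.Helper522.MSA.IsStdII1 M Ω) :
    IsStdII1 M Ω := by
  refine ⟨h.unit, h.tr, h.cyc, h.sep, h.fac, fun hf => h.inf ?_⟩
  have : FiniteDimensional ℂ (H →L[ℂ] H) := inferInstance
  exact FiniteDimensional.finiteDimensional_submodule
    (Subalgebra.toSubmodule M.toStarSubalgebra.toSubalgebra)

theorem hyp (M : VonNeumannAlgebra H) (Ω : H) (h : Pool.Agent.Helper522.MSA.Hyperfinite M Ω) :
    Hyperfinite M Ω := by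
  obtain ⟨N, h1, h2, h3, h4⟩ := h
  refine ⟨fun n => (N n : Set (H →L[ℂ] H)), fun n => ?_, fun n => h1 (Nat.le_succ n), h3, h4⟩
  have := h2 n
  refine ⟨one_mem _, fun x hx y hy => add_mem hx hy, fun x hx y hy => mul_mem hx hy,
    fun c x hx => (N n).smul_mem hx c, fun x hx => star_mem hx, ?_⟩
  refine ⟨Module.finrank ℂ (N n), fun i => ((Module.finBasis ℂ (N n)) i : H →L[ℂ] H),
    fun x hx => ⟨fun i => (Module.finBasis ℂ (N n)).repr ⟨x, hx⟩ i, ?_⟩⟩
  have h := congrArg (fun z : N n => (z : H →L[ℂ] H))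
    ((Module.finBasis ℂ (N n)).sum_repr ⟨x, hx⟩)
  exact h.symm.trans (AddSubmonoidClass.coe_finsetSum _ _)

/-- conversion of automorphisms -/
noncomputable def conv {M : VonNeumannAlgebra H} (α : Pool.Agent.Helper522.MSA.Au M) : Au M where
  toFun x := ⟨(α ⟨x.1, x.2⟩).1, (α ⟨x.1, x.2⟩).2⟩
  invFun x := ⟨(α.symm ⟨x.1, x.2⟩).1, (α.symm ⟨x.1, x.2⟩).2⟩
  left_inv x := Subtype.ext (by
    have h := congrArg Subtype.val (α.symm_apply_apply ⟨x.1, x.2⟩)
    exact h)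
  right_inv x := Subtype.ext (by
    have h := congrArg Subtype.val (α.apply_symm_apply ⟨x.1, x.2⟩)
    exact h)
  map_mul' x y := Subtype.ext (by
    have h := congrArg Subtype.val (map_mul α ⟨x.1, x.2⟩ ⟨y.1, y.2⟩)
    exact h)
  map_add' x y := Subtype.ext (by
    have h := congrArg Subtype.val (map_add α ⟨x.1, x.2⟩ ⟨y.1, y.2⟩)
    exact h)
  map_star' x := Subtype.ext (by
    have h := congrArg Subtype.val (map_star α ⟨x.1, x.2⟩)
    exact h)
  map_smul' c x := Subtype.ext (by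
    have h := congrArg Subtype.val (map_smul α c ⟨x.1, x.2⟩)
    exact h)

theorem conv_orbit {M : VonNeumannAlgebra H} (A : Masa M) :
    Pool.Agent.Helper522.MSA.orbit A ⊆ orbit A := by
  rintro B ⟨α, hα⟩
  refine ⟨conv α, fun y => ⟨fun hy => ?_, ?_⟩⟩
  · have hyM : y ∈ M := B.2.1 y hy
    refine ⟨⟨(α.symm ⟨y, hyM⟩).1, (α.symm ⟨y, hyM⟩).2⟩, (hα ⟨y, hyM⟩).1 hy, ?_⟩
    have h := congrArg Subtype.val (α.apply_symm_apply ⟨y, hyM⟩)
    exact h
  · rintro ⟨x, hx, rfl⟩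
    have h := (hα (α ⟨x.1, x.2⟩)).2 (by
      rw [α.symm_apply_apply]
      exact hx)
    exact h

end aux

/-- There is a hyperfinite II₁ factor `M`, in standard form on a separable Hilbert space, for which
some orbit of the action of `Aut(M)` on `Masa(M)` is nonmeagre, and the action is not turbulent. -/
theorem result : ∃ (H : Type) (_ : NormedAddCommGroup H) (_ : InnerProductSpace ℂ H)
    (_ : CompleteSpace H) (M : VonNeumannAlgebra H) (Ω : H),
    TopologicalSpace.SeparableSpace H ∧ IsStdII1 M Ω ∧ Hyperfinite M Ω ∧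
      (∃ A : Masa M, ¬ IsMeagre (orbit A)) ∧ ¬ Turbulent M Ω := by
  obtain ⟨H, i1, i2, i3, M, Ω, blk, hsep, hII, hhyp, S⟩ := Pool.Agent.Helper522.MSA.model
  obtain ⟨l, V, A, τ⟩ := Pool.Agent.Helper522.MSA.towerE S
  have hA : ¬ IsMeagre (orbit A) := fun h =>
    Pool.Agent.Helper522.MSA.nonmeagre S l V A τ (h.mono (conv_orbit A))
  exact ⟨H, i1, i2, i3, M, Ω, hsep, std M Ω hII, hyp M Ω hhyp, ⟨A, hA⟩, fun h => hA (h.1 A).2⟩

end Pool.Agent.Results.MP_ae6442_lc.NotTurbulent
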